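import Mathlib

open MeasureTheory Set Filter

namespace Pool.Agent.Results.MP_33ac70_nt.BlockCounterexample

/-- auxiliary: the weight used in the proof -/
noncomputable def rho (a : ℕ) : ℝ :=
  if a < 16 ^ Nat.log 16 a + 2 ^ Nat.log 16 a then (a : ℝ) / 2 ^ Nat.log 16 a else 0

lemma rho_nonneg (a : ℕ) : 0 ≤ rho a := by unfold rho; split_ifs <;> positivity

lemma block_le (j : ℕ) : 16 ^ j + 2 ^ j ≤ 16 ^ (j + 1) := by
  have : 2 ^ j ≤ 16 ^ j := Nat.pow_le_pow_left (by norm_num) j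
  rw [pow_succ]; omega

lemma rho_block (j i : ℕ) (hi : i < 2 ^ j) :
    rho (16 ^ j + i) / ((16 ^ j + i : ℕ) : ℝ) = 1 / 2 ^ j := by
  have h : Nat.log 16 (16 ^ j + i) = j :=
    Nat.log_eq_of_pow_le_of_lt_pow (by omega) (by have := block_le j; omega)
  have h0 : ((16 ^ j + i : ℕ) : ℝ) ≠ 0 := by positivity
  rw [rho, h, if_pos (by omega)]
  field_simp

lemma not_summable : ¬ Summable (fun m : ℕ => rho (m + 1) / ((m + 1 : ℕ) : ℝ)) := by
  intro h
  have h' : Summable (fun m : ℕ => rho m / (m : ℝ)) := (summable_nat_add_iff 1).mp h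
  have key : ∀ j : ℕ, (j : ℝ) ≤ ∑ m ∈ Finset.range (16 ^ j), rho m / (m : ℝ) := by
    intro j
    induction j with
    | zero => simp
    | succ j ih =>
      have h1 : ∑ m ∈ Finset.range (16 ^ j + 2 ^ j), rho m / (m : ℝ)
          ≤ ∑ m ∈ Finset.range (16 ^ (j + 1)), rho m / (m : ℝ) :=
        Finset.sum_le_sum_of_subset_of_nonneg (Finset.range_mono (block_le j))
          fun m _ _ => div_nonneg (rho_nonneg m) (Nat.cast_nonneg m)
      rw [Finset.sum_range_add, Finset.sum_congr rfl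
        (fun i hi => rho_block j i (Finset.mem_range.mp hi))] at h1
      simp only [Finset.sum_const, Finset.card_range, nsmul_eq_mul] at h1
      have : ((2 ^ j : ℕ) : ℝ) * (1 / 2 ^ j) = 1 := by push_cast; field_simp
      push_cast at *
      linarith
  obtain ⟨j, hj⟩ := exists_nat_gt (∑' m : ℕ, rho m / (m : ℝ))
  have := h'.sum_le_tsum (Finset.range (16 ^ j))
    fun m _ => div_nonneg (rho_nonneg m) (Nat.cast_nonneg m)
  linarith [key j]

/-- auxiliary: bad set at scale `j + 3` -/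
def bad (j : ℕ) : Set ℝ :=
  ⋃ b ∈ (Finset.Icc 1 (16 ^ (j + 3)) : Finset ℕ),
    Icc (Real.log ((b : ℝ) - 2 / 2 ^ (j + 3)) / Real.log (16 ^ (j + 3)))
      (Real.log ((b : ℝ) + 2 / 2 ^ (j + 3)) / Real.log (16 ^ (j + 3)))

lemma small (j : ℕ) : (2:ℝ) / 2 ^ (j + 3) ≤ 1 / 4 := by
  have : (1:ℝ) ≤ 2 ^ j := one_le_pow₀ (by norm_num)
  rw [pow_add, div_le_div_iff₀ (by positivity) (by norm_num)]
  nlinarith

lemma log16 : 1 ≤ Real.log 16 ∧ Real.log 16 ≤ 15 := by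
  constructor
  · rw [Real.le_log_iff_exp_le (by norm_num)]
    linarith [Real.exp_one_lt_d9]
  · linarith [Real.log_le_sub_one_of_pos (show (0:ℝ) < 16 by norm_num)]

lemma bad_measure (j : ℕ) :
    volume (bad j) ≤ ENNReal.ofReal (46 * ((j + 1) * (1 / 2) ^ j)) := by
  have hs := small j
  set η : ℝ := 2 / 2 ^ (j + 3) with hη
  have hη0 : 0 < η := by positivity
  have hL : 1 ≤ Real.log ((16:ℝ) ^ (j + 3)) := by
    rw [Real.log_pow]; push_cast
    nlinarith [log16.1, (Nat.cast_nonneg j : (0:ℝ) ≤ j)]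
  refine (measure_biUnion_finset_le _ _).trans ?_
  have h1 : ∀ b ∈ (Finset.Icc 1 (16 ^ (j + 3)) : Finset ℕ),
      volume (Icc (Real.log ((b : ℝ) - η) / Real.log (16 ^ (j + 3)))
        (Real.log ((b : ℝ) + η) / Real.log (16 ^ (j + 3)))) ≤ ENNReal.ofReal (4 * η * (b:ℝ)⁻¹) := by
    intro b hb
    have hb1 : (1:ℝ) ≤ b := by exact_mod_cast (Finset.mem_Icc.mp hb).1
    rw [Real.volume_Icc]
    apply ENNReal.ofReal_le_ofReal
    rw [← sub_div, ← Real.log_div (by linarith) (by linarith)]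
    have h2 := Real.log_le_sub_one_of_pos
      (show 0 < ((b:ℝ) + η) / (b - η) from div_pos (by linarith) (by linarith))
    have h3 : ((b:ℝ) + η) / (b - η) - 1 ≤ 4 * η * (b:ℝ)⁻¹ := by
      rw [← div_eq_mul_inv, div_sub_one (by linarith), div_le_div_iff₀ (by linarith) (by linarith)]
      nlinarith
    have h4 : 0 ≤ 4 * η * (b:ℝ)⁻¹ := by positivity
    rw [div_le_iff₀ (by linarith)]
    nlinarith
  refine (Finset.sum_le_sum h1).trans ?_
  rw [← ENNReal.ofReal_sum_of_nonneg (fun b _ => by positivity), ← Finset.mul_sum]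
  apply ENNReal.ofReal_le_ofReal
  have h5 := harmonic_le_one_add_log (16 ^ (j + 3))
  rw [harmonic_eq_sum_Icc] at h5
  push_cast at h5
  rw [Real.log_pow] at h5
  push_cast at h5
  have h6 : 4 * η = (1 / 2) ^ j := by rw [hη, pow_add, one_div_pow]; field_simp; norm_num
  rw [h6]
  have h7 : (0:ℝ) < (1 / 2) ^ j := by positivity
  have h8 : (0:ℝ) ≤ j := Nat.cast_nonneg j
  have h9 : ∑ x ∈ Finset.Icc 1 (16 ^ (j + 3)), ((x : ℕ) : ℝ)⁻¹ ≤ 46 * (j + 1) := by
    nlinarith [log16.2]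
  nlinarith

lemma ae_bad : ∀ᵐ θ : ℝ, {j | θ ∈ bad j}.Finite := by
  apply ae_finite_setOfPred_mem
  have hs : Summable fun j : ℕ => 46 * (((j:ℝ) + 1) * (1 / 2) ^ j) := by
    refine Summable.mul_left _ ?_
    have h1 := summable_pow_mul_geometric_of_norm_lt_one 1 (r := (1 / 2 : ℝ)) (by norm_num)
    have h2 := summable_geometric_two
    simpa [add_mul] using h1.add h2
  refine ne_top_of_le_ne_top ?_ (ENNReal.tsum_le_tsum bad_measure)
  rw [← ENNReal.ofReal_tsum_of_nonneg (fun j => by positivity) hs]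
  exact ENNReal.ofReal_ne_top

lemma ae_ne : ∀ᵐ θ : ℝ, ∀ a b : ℕ, θ ≠ Real.log b / Real.log a := by
  rw [ae_all_iff]; intro a
  rw [ae_all_iff]; intro b
  exact (Set.countable_singleton _).ae_notMem volume

lemma mem_bad {θ : ℝ} (h0 : 0 < θ) (h1 : θ ≤ 1 / 2) (j a b : ℕ) (hb : 1 ≤ b)
    (ha1 : 16 ^ (j + 3) ≤ a) (ha2 : a < 16 ^ (j + 3) + 2 ^ (j + 3))
    (h : |(a:ℝ) ^ θ - b| ≤ 1 / 2 ^ (j + 3)) : θ ∈ bad j := by
  have hs := small j
  set L : ℝ := 2 ^ (j + 3) with hL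
  set N : ℝ := 16 ^ (j + 3) with hN
  have hL8 : 8 ≤ L := by
    have : (1:ℝ) ≤ 2 ^ j := one_le_pow₀ (by norm_num)
    rw [hL, pow_add]; nlinarith
  have hNL : N = (L ^ 2) ^ 2 := by
    rw [hN, hL, ← pow_mul, ← pow_mul, mul_comm (j + 3), pow_mul]; norm_num
  have hN1 : 1 < N := by rw [hNL]; nlinarith [sq_nonneg (L ^ 2 - 1)]
  have ha1' : N ≤ a := by rw [hN]; exact_mod_cast ha1
  have ha2' : (a:ℝ) ≤ N + L := by rw [hN, hL]; exact_mod_cast ha2.le
  have hNθ : N ^ θ ≤ L ^ 2 := by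
    refine (Real.rpow_le_rpow_of_exponent_le hN1.le h1).trans (le_of_eq ?_)
    rw [hNL, ← Real.sqrt_eq_rpow, Real.sqrt_sq (by positivity)]
  have hNθ0 : 0 < N ^ θ := by positivity
  have l1 : N ^ θ ≤ (a:ℝ) ^ θ := Real.rpow_le_rpow (by linarith) ha1' h0.le
  have l2 : (a:ℝ) ^ θ ≤ N ^ θ + 1 / L := by
    have e1 : (a:ℝ) ^ θ = N ^ θ * (a / N) ^ θ := by
      rw [← Real.mul_rpow (by linarith) (by positivity)]; congr 1; field_simp
    have e2 : ((a:ℝ) / N) ^ θ ≤ a / N := by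
      have := Real.rpow_le_rpow_of_exponent_le
        (show 1 ≤ (a:ℝ) / N by rw [le_div_iff₀ (by linarith)]; linarith) (show θ ≤ 1 by linarith)
      rwa [Real.rpow_one] at this
    have e3 : (a:ℝ) / N ≤ 1 + L / N := by
      rw [div_le_iff₀ (by linarith), add_mul, div_mul_cancel₀ _ (by linarith)]; linarith
    have e4 : N ^ θ * (L / N) ≤ 1 / L := by
      calc N ^ θ * (L / N) ≤ L ^ 2 * (L / N) := by gcongr
        _ = 1 / L := by rw [hNL]; field_simp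
    rw [e1]
    nlinarith
  rw [abs_le] at h
  have hb' : (1:ℝ) ≤ b := by exact_mod_cast hb
  have e2 : 2 / L = 1 / L + 1 / L := by ring
  have hL0 : 0 < 1 / L := by positivity
  have hlog : 0 < Real.log N := Real.log_pos hN1
  simp only [bad, mem_iUnion]
  refine ⟨b, ?_, ?_, ?_⟩
  · rw [Finset.mem_Icc]
    refine ⟨hb, ?_⟩
    have : (b:ℝ) ≤ N := by rw [hNL]; nlinarith [sq_nonneg (L ^ 2 - 1)]
    rw [hN] at this
    exact_mod_cast this
  · rw [div_le_iff₀ hlog, ← Real.log_rpow (by linarith)]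
    exact Real.log_le_log (by linarith) (by linarith)
  · rw [le_div_iff₀ hlog, ← Real.log_rpow (by linarith)]
    exact Real.log_le_log hNθ0 (by linarith)

lemma main : ∀ᵐ θ : ℝ, 0 < θ → θ ≤ 1 / 2 →
    {p : ℕ × ℕ | 1 ≤ p.1 ∧ 1 ≤ p.2 ∧ |(p.1 : ℝ) ^ θ - p.2| ≤ rho p.1 / p.1}.Finite := by
  filter_upwards [ae_bad, ae_ne] with θ hfin hne h0 h1
  obtain ⟨J, hJ⟩ := hfin.bddAbove
  refine ((Set.finite_Iic (16 ^ (J + 4))).prod (Set.finite_Iic (16 ^ (J + 4) + 1))).subset ?_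
  rintro ⟨a, b⟩ ⟨ha, hb, h⟩
  simp only at ha hb h
  have ha' : (1:ℝ) ≤ a := by exact_mod_cast ha
  have hr : rho a / a ≤ 1 := by
    unfold rho
    split_ifs
    · rw [div_div, div_le_one (by positivity)]
      nlinarith [(one_le_pow₀ (by norm_num) : (1:ℝ) ≤ 2 ^ Nat.log 16 a)]
    · simp
  have hab : b ≤ a + 1 := by
    have := Real.rpow_le_rpow_of_exponent_le ha' (show θ ≤ 1 by linarith)
    rw [Real.rpow_one] at this
    rw [abs_le] at h
    have : (b:ℝ) ≤ a + 1 := by linarith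
    exact_mod_cast this
  suffices a ≤ 16 ^ (J + 4) by
    simp only [mem_prod, mem_Iic]; omega
  by_contra hlt
  push Not at hlt
  have hj : J + 4 ≤ Nat.log 16 a := Nat.le_log_of_pow_le (by norm_num) hlt.le
  obtain ⟨j, hj'⟩ : ∃ j, Nat.log 16 a = j + 3 := ⟨Nat.log 16 a - 3, by omega⟩
  unfold rho at h
  split_ifs at h with hc
  · rw [hj'] at h hc
    have h2 : 16 ^ (j + 3) ≤ a := hj' ▸ Nat.pow_log_le_self 16 (by omega)
    have : θ ∈ bad j := mem_bad h0 h1 j a b hb h2 hc (by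
      refine h.trans (le_of_eq ?_); field_simp)
    have := hJ this
    omega
  · rw [zero_div, abs_nonpos_iff, sub_eq_zero] at h
    apply hne a b
    have h16 : 1 < a := lt_of_le_of_lt (Nat.one_le_pow _ _ (by norm_num)) hlt
    have : 0 < Real.log a := Real.log_pos (by exact_mod_cast h16)
    rw [← h, Real.log_rpow (by linarith)]
    field_simp

lemma main2 : ∀ᵐ θ : ℝ, 0 < θ → θ ≤ 1 / 2 →
        {p : (Fin 1 → ℕ) × ℕ | (∀ j, 1 ≤ p.1 j) ∧ 1 ≤ p.2 ∧
          |∑ j, (p.1 j : ℝ) ^ θ - p.2| ≤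
            rho (Finset.univ.sup p.1) / ((Finset.univ.sup p.1 : ℕ) : ℝ) ^ 1}.Finite := by
  filter_upwards [main] with θ h h0 h1
  refine Set.Finite.of_finite_image (f := fun p : (Fin 1 → ℕ) × ℕ => (p.1 0, p.2))
    ((h h0 h1).subset ?_) ?_
  · rintro _ ⟨p, ⟨a, b, c⟩, rfl⟩
    refine ⟨a 0, b, ?_⟩
    simpa using c
  · intro p _ q _ hpq
    simp only [Prod.mk.injEq] at hpq
    refine Prod.ext (funext fun i => ?_) hpq.2
    rw [Subsingleton.elim i 0]; exact hpq.1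

theorem result :
    ∃ (k : ℕ) (ρ : ℕ → ℝ), 1 ≤ k ∧ (∀ m, 0 ≤ ρ m) ∧
      ¬ Summable (fun m : ℕ => ρ (m + 1) / ((m + 1 : ℕ) : ℝ)) ∧
      0 < volume {θ : ℝ | 0 < θ ∧
        {p : (Fin k → ℕ) × ℕ | (∀ j, 1 ≤ p.1 j) ∧ 1 ≤ p.2 ∧
          |∑ j, (p.1 j : ℝ) ^ θ - p.2| ≤
            ρ (Finset.univ.sup p.1) / ((Finset.univ.sup p.1 : ℕ) : ℝ) ^ k}.Finite} := by
  refine ⟨1, rho, le_rfl, rho_nonneg, not_summable, ?_⟩
  have h : 0 < volume (Ioc (0:ℝ) (1 / 2)) := by simp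
  refine h.trans_le (measure_mono_ae ?_)
  filter_upwards [main2] with θ h hθ
  exact ⟨hθ.1, h hθ.1 hθ.2⟩

end Pool.Agent.Results.MP_33ac70_nt.BlockCounterexample
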